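import Pool.Agent.helper55.BL.Spec

/-!
# Row bl:CMP
-/

set_option autoImplicit false

namespace Pool.Agent.helper55.BL

open Finset
open scoped Classical
open Pool.Agent.helper61.BM (Clo dg)

theorem CMP_arith (M L d f : ℕ) (hM : f < M) (hd : (M + 1) ^ (L + 1) ≤ d)
    (h : d ≤ f * ((M + 1) ^ L - 1) + 1) : False := by
  have h1 : 1 ≤ (M + 1) ^ L := Nat.one_le_pow _ _ (by omega)
  obtain ⟨x, hx⟩ : ∃ x, (M + 1) ^ L = x + 1 := ⟨(M + 1) ^ L - 1, by omega⟩
  rw [pow_succ, hx] at hd
  rw [hx] at h
  simp only [Nat.add_sub_cancel] at h
  have h2 : f * x ≤ M * x := Nat.mul_le_mul_right _ hM.le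
  nlinarith

theorem CMP (hCPS : CPS_stmt) : CMP_stmt := by
  intro V _ G M hM L
  induction L with
  | zero =>
    intro A D r hF hr hcard
    right
    exact ⟨fun _ => r, ⟨fun i j hi hj _ => by omega, fun i hi => absurd hi (by omega)⟩, rfl,
      fun _ _ => hr⟩
  | succ L ih =>
    intro A D r hF hr hcard
    have hdj : Disjoint (insert r A) (D.erase r) := by
      rw [Finset.disjoint_left]
      intro v hv hv'
      rw [Finset.mem_erase] at hv'
      rw [Finset.mem_insert] at hv
      rcases hv with hv | hv
      · exact hv'.1 hv
      · exact (Finset.disjoint_left.1 hF.dj) hv hv'.2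
    have hnb : ∀ u ∈ D.erase r, ∀ v, G.Adj u v → v ∈ D.erase r ∨ v ∈ insert r A := by
      intro u hu v huv
      rw [Finset.mem_erase] at hu
      by_cases hvr : v = r
      · right
        rw [hvr]
        exact Finset.mem_insert_self _ _
      · rcases hF.nb u hu.2 v huv with h | h
        · left
          exact Finset.mem_erase.2 ⟨hvr, h⟩
        · right
          exact Finset.mem_insert_of_mem h
    obtain ⟨F, hF1, hF2, hF3⟩ := hCPS V G (insert r A) (D.erase r) hdj hnb
    by_cases hMF : M ≤ F.card
    · left
      refine ⟨insert r A, ?_, F, hMF, fun E hE => (hF1 E hE).1, hF2⟩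
      have := Finset.card_insert_le r A
      omega
    · push Not at hMF
      have hex : ∃ E ∈ F, (M + 1) ^ L ≤ E.card := by
        by_contra hcon
        push Not at hcon
        have h1 : (D.erase r).card ≤ ∑ E ∈ F, E.card := by
          have hsub : D.erase r ⊆ F.biUnion (fun E => E) := by
            intro v hv
            obtain ⟨E, hE, hvE⟩ := hF3 v hv
            exact Finset.mem_biUnion.2 ⟨E, hE, hvE⟩
          exact (Finset.card_le_card hsub).trans Finset.card_biUnion_le
        have h2 : ∑ E ∈ F, E.card ≤ F.card * ((M + 1) ^ L - 1) := by
          have h3 : ∑ E ∈ F, E.card ≤ F.card • ((M + 1) ^ L - 1) :=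
            Finset.sum_le_card_nsmul F _ _ (fun E hE => by
              have := hcon E hE
              omega)
          simpa using h3
        have h4 : (D.erase r).card = D.card - 1 := Finset.card_erase_of_mem hr
        exact CMP_arith M L D.card F.card hMF hcard (by omega)
      obtain ⟨E, hE, hEc⟩ := hex
      obtain ⟨hEF, hED⟩ := hF1 E hE
      have hrE : r ∉ E := fun h => (Finset.mem_erase.1 (hED h)).1 rfl
      have hED' : E ⊆ D := fun v hv => (Finset.mem_erase.1 (hED hv)).2
      have hne : E ≠ D := by
        intro h
        rw [h] at hrE
        exact hrE hr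
      obtain ⟨u, hu, v, hv, hvE, huv⟩ := hF.cn E hED' hEF.ne hne
      have hvr : v = r := by
        rcases hEF.nb u hu v huv with h | h
        · exact absurd h hvE
        · rcases Finset.mem_insert.1 h with h | h
          · exact h
          · exact absurd hv ((Finset.disjoint_left.1 hF.dj) h)
      rw [hvr] at huv
      rcases ih (insert r A) E u hEF hu hEc with ⟨A', hA', F', hF'⟩ | ⟨p, hp, hp0, hpD⟩
      · left
        refine ⟨A', ?_, F', hF'⟩
        have := Finset.card_insert_le r A
        omega
      · right
        refine ⟨fun j => match j with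
          | 0 => r
          | j + 1 => p j, ⟨?_, ?_⟩, rfl, ?_⟩
        · intro i j hi hj hij
          rcases i with _ | i <;> rcases j with _ | j
          · rfl
          · have h1 : p j ∈ E := hpD j (by omega)
            have h2 : r = p j := hij
            rw [← h2] at h1
            exact absurd h1 hrE
          · have h1 : p i ∈ E := hpD i (by omega)
            have h2 : p i = r := hij
            rw [h2] at h1
            exact absurd h1 hrE
          · have h1 : p i = p j := hij
            rw [hp.inj i j (by omega) (by omega) h1]
        · intro i hi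
          rcases i with _ | i
          · change G.Adj r (p 0)
            rw [hp0]
            exact huv.symm
          · change G.Adj (p i) (p (i + 1))
            exact hp.adj i (by omega)
        · intro j hj
          rcases j with _ | j
          · exact hr
          · exact hED' (hpD j (by omega))

end Pool.Agent.helper55.BL

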